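import Pool.Agent.NNr.R15_1_3_4.D0
import Pool.Agent.NNr.R15_1_3_4.D1
import Pool.Agent.NNe.Slots

set_option linter.all false
set_option maxRecDepth 1000000
namespace Pool.Agent.NNr.R15_1_3_4

open Pool.Agent.NNe

def wf1_11 : wfC (nat_lit 61) (nat_lit 3) C1_11 = true := by decide +kernel
def rf1_11 : rfCk (nat_lit 61) (nat_lit 5) (nat_lit 61) (nat_lit 3) (nat_lit 1) (nat_lit 262144) (nat_lit 11) TL1 CL0 CL1 = true := by decide +kernel
def st1_11_0 : starCk (nat_lit 61) (nat_lit 3) (nat_lit 1) (nat_lit 1) (nat_lit 17) (nat_lit 100) (nat_lit 256) C1_11 = true := by decide +kernel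
def sc1_11 : stCov (nat_lit 2) (nat_lit 100) (Rl.cons (nat_lit 100) (nat_lit 17) Rl.nil) C1_11 = true := by decide +kernel
def wf1_12 : wfC (nat_lit 61) (nat_lit 3) C1_12 = true := by decide +kernel
def rf1_12 : rfCk (nat_lit 61) (nat_lit 5) (nat_lit 61) (nat_lit 3) (nat_lit 1) (nat_lit 262144) (nat_lit 12) TL1 CL0 CL1 = true := by decide +kernel
def st1_12_0 : starCk (nat_lit 61) (nat_lit 3) (nat_lit 1) (nat_lit 1) (nat_lit 14) (nat_lit 170) (nat_lit 256) C1_12 = true := by decide +kernel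
def sc1_12 : stCov (nat_lit 2) (nat_lit 170) (Rl.cons (nat_lit 170) (nat_lit 14) Rl.nil) C1_12 = true := by decide +kernel
def wf1_13 : wfC (nat_lit 61) (nat_lit 3) C1_13 = true := by decide +kernel
def rf1_13 : rfCk (nat_lit 61) (nat_lit 5) (nat_lit 61) (nat_lit 3) (nat_lit 1) (nat_lit 262144) (nat_lit 13) TL1 CL0 CL1 = true := by decide +kernel
def st1_13_0 : starCk (nat_lit 61) (nat_lit 3) (nat_lit 1) (nat_lit 1) (nat_lit 34) (nat_lit 76) (nat_lit 16) C1_13 = true := by decide +kernel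
def sc1_13 : stCov (nat_lit 1) (nat_lit 76) (Rl.cons (nat_lit 76) (nat_lit 34) Rl.nil) C1_13 = true := by decide +kernel
def wf1_16 : wfC (nat_lit 61) (nat_lit 3) C1_16 = true := by decide +kernel
def rf1_16 : rfCk (nat_lit 61) (nat_lit 5) (nat_lit 61) (nat_lit 3) (nat_lit 1) (nat_lit 262144) (nat_lit 16) TL1 CL0 CL1 = true := by decide +kernel
def st1_16_0 : starCk (nat_lit 61) (nat_lit 3) (nat_lit 1) (nat_lit 1) (nat_lit 382) (nat_lit 459) (nat_lit 4096) C1_16 = true := by decide +kernel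
def sc1_16 : stCov (nat_lit 3) (nat_lit 459) (Rl.cons (nat_lit 459) (nat_lit 382) Rl.nil) C1_16 = true := by decide +kernel
def wf1_17 : wfC (nat_lit 61) (nat_lit 3) C1_17 = true := by decide +kernel
def rf1_17 : rfCk (nat_lit 61) (nat_lit 5) (nat_lit 61) (nat_lit 3) (nat_lit 1) (nat_lit 262144) (nat_lit 17) TL1 CL0 CL1 = true := by decide +kernel
def st1_17_0 : starCk (nat_lit 61) (nat_lit 3) (nat_lit 1) (nat_lit 1) (nat_lit 172) (nat_lit 396) (nat_lit 16) C1_17 = true := by decide +kernel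
def sc1_17 : stCov (nat_lit 1) (nat_lit 396) (Rl.cons (nat_lit 396) (nat_lit 172) Rl.nil) C1_17 = true := by decide +kernel
def wf1_18 : wfC (nat_lit 61) (nat_lit 3) C1_18 = true := by decide +kernel
def rf1_18 : rfCk (nat_lit 61) (nat_lit 5) (nat_lit 61) (nat_lit 3) (nat_lit 1) (nat_lit 262144) (nat_lit 18) TL1 CL0 CL1 = true := by decide +kernel
def st1_18_0 : starCk (nat_lit 61) (nat_lit 3) (nat_lit 1) (nat_lit 1) (nat_lit 192) (nat_lit 404) (nat_lit 16) C1_18 = true := by decide +kernel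
def sc1_18 : stCov (nat_lit 1) (nat_lit 404) (Rl.cons (nat_lit 404) (nat_lit 192) Rl.nil) C1_18 = true := by decide +kernel
def wf1_19 : wfC (nat_lit 61) (nat_lit 3) C1_19 = true := by decide +kernel
def rf1_19 : rfCk (nat_lit 61) (nat_lit 5) (nat_lit 61) (nat_lit 3) (nat_lit 1) (nat_lit 262144) (nat_lit 19) TL1 CL0 CL1 = true := by decide +kernel
def st1_19_0 : starCk (nat_lit 61) (nat_lit 3) (nat_lit 1) (nat_lit 1) (nat_lit 168) (nat_lit 396) (nat_lit 256) C1_19 = true := by decide +kernel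
def sc1_19 : stCov (nat_lit 2) (nat_lit 396) (Rl.cons (nat_lit 396) (nat_lit 168) Rl.nil) C1_19 = true := by decide +kernel
def wf1_20 : wfC (nat_lit 61) (nat_lit 3) C1_20 = true := by decide +kernel
def rf1_20 : rfCk (nat_lit 61) (nat_lit 5) (nat_lit 61) (nat_lit 3) (nat_lit 1) (nat_lit 262144) (nat_lit 20) TL1 CL0 CL1 = true := by decide +kernel
def st1_20_0 : starCk (nat_lit 61) (nat_lit 3) (nat_lit 1) (nat_lit 1) (nat_lit 122) (nat_lit 368) (nat_lit 16) C1_20 = true := by decide +kernel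
def sc1_20 : stCov (nat_lit 1) (nat_lit 368) (Rl.cons (nat_lit 368) (nat_lit 122) Rl.nil) C1_20 = true := by decide +kernel
def wf1_21 : wfC (nat_lit 61) (nat_lit 3) C1_21 = true := by decide +kernel
def rf1_21 : rfCk (nat_lit 61) (nat_lit 5) (nat_lit 61) (nat_lit 3) (nat_lit 1) (nat_lit 262144) (nat_lit 21) TL1 CL0 CL1 = true := by decide +kernel
def st1_21_0 : starCk (nat_lit 61) (nat_lit 3) (nat_lit 1) (nat_lit 1) (nat_lit 164) (nat_lit 224) (nat_lit 4096) C1_21 = true := by decide +kernel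
def sc1_21 : stCov (nat_lit 3) (nat_lit 224) (Rl.cons (nat_lit 224) (nat_lit 164) Rl.nil) C1_21 = true := by decide +kernel

end Pool.Agent.NNr.R15_1_3_4
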