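import Pool.Agent.NNr.R15_1_3_4.D1
import Pool.Agent.NNr.R15_1_3_4.D2

set_option linter.all false
set_option maxRecDepth 1000000
namespace Pool.Agent.NNr.R15_1_3_4

open Pool.Agent.NNe

def rf2_11 : rfCk (nat_lit 61) (nat_lit 3) (nat_lit 61) (nat_lit 7) (nat_lit 9) (nat_lit 0) (nat_lit 11) TL2 CL1 CL2 = true := by decide +kernel
def st2_11_0 : starCk (nat_lit 61) (nat_lit 7) (nat_lit 1) (nat_lit 3) (nat_lit 14) (nat_lit 53) (nat_lit 256) C2_11 = true := by decide +kernel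
def sc2_11 : stCov (nat_lit 2) (nat_lit 53) (Rl.cons (nat_lit 53) (nat_lit 14) Rl.nil) C2_11 = true := by decide +kernel
def wf2_12 : wfC (nat_lit 61) (nat_lit 7) C2_12 = true := by decide +kernel
def rf2_12 : rfCk (nat_lit 61) (nat_lit 3) (nat_lit 61) (nat_lit 7) (nat_lit 9) (nat_lit 0) (nat_lit 12) TL2 CL1 CL2 = true := by decide +kernel
def st2_12_0 : starCk (nat_lit 61) (nat_lit 7) (nat_lit 1) (nat_lit 3) (nat_lit 11) (nat_lit 91) (nat_lit 256) C2_12 = true := by decide +kernel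
def sc2_12 : stCov (nat_lit 2) (nat_lit 91) (Rl.cons (nat_lit 91) (nat_lit 11) Rl.nil) C2_12 = true := by decide +kernel
def wf2_13 : wfC (nat_lit 61) (nat_lit 7) C2_13 = true := by decide +kernel
def rf2_13 : rfCk (nat_lit 61) (nat_lit 3) (nat_lit 61) (nat_lit 7) (nat_lit 9) (nat_lit 0) (nat_lit 13) TL2 CL1 CL2 = true := by decide +kernel
def st2_13_0 : starCk (nat_lit 61) (nat_lit 7) (nat_lit 1) (nat_lit 3) (nat_lit 12) (nat_lit 40) (nat_lit 16) C2_13 = true := by decide +kernel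
def sc2_13 : stCov (nat_lit 1) (nat_lit 40) (Rl.cons (nat_lit 40) (nat_lit 12) Rl.nil) C2_13 = true := by decide +kernel
def wf2_16 : wfC (nat_lit 61) (nat_lit 7) C2_16 = true := by decide +kernel
def rf2_16 : rfCk (nat_lit 61) (nat_lit 3) (nat_lit 61) (nat_lit 7) (nat_lit 9) (nat_lit 0) (nat_lit 16) TL2 CL1 CL2 = true := by decide +kernel
def st2_16_0 : starCk (nat_lit 61) (nat_lit 7) (nat_lit 1) (nat_lit 3) (nat_lit 247) (nat_lit 322) (nat_lit 4096) C2_16 = true := by decide +kernel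
def sc2_16 : stCov (nat_lit 3) (nat_lit 322) (Rl.cons (nat_lit 322) (nat_lit 247) Rl.nil) C2_16 = true := by decide +kernel
def wf2_17 : wfC (nat_lit 61) (nat_lit 7) C2_17 = true := by decide +kernel
def rf2_17 : rfCk (nat_lit 61) (nat_lit 3) (nat_lit 61) (nat_lit 7) (nat_lit 9) (nat_lit 0) (nat_lit 17) TL2 CL1 CL2 = true := by decide +kernel
def st2_17_0 : starCk (nat_lit 61) (nat_lit 7) (nat_lit 1) (nat_lit 3) (nat_lit 91) (nat_lit 276) (nat_lit 16) C2_17 = true := by decide +kernel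
def sc2_17 : stCov (nat_lit 1) (nat_lit 276) (Rl.cons (nat_lit 276) (nat_lit 91) Rl.nil) C2_17 = true := by decide +kernel
def wf2_18 : wfC (nat_lit 61) (nat_lit 7) C2_18 = true := by decide +kernel
def rf2_18 : rfCk (nat_lit 61) (nat_lit 3) (nat_lit 61) (nat_lit 7) (nat_lit 9) (nat_lit 0) (nat_lit 18) TL2 CL1 CL2 = true := by decide +kernel
def st2_18_0 : starCk (nat_lit 61) (nat_lit 7) (nat_lit 1) (nat_lit 3) (nat_lit 106) (nat_lit 250) (nat_lit 16) C2_18 = true := by decide +kernel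
def sc2_18 : stCov (nat_lit 1) (nat_lit 250) (Rl.cons (nat_lit 250) (nat_lit 106) Rl.nil) C2_18 = true := by decide +kernel
def wf2_19 : wfC (nat_lit 61) (nat_lit 7) C2_19 = true := by decide +kernel
def rf2_19 : rfCk (nat_lit 61) (nat_lit 3) (nat_lit 61) (nat_lit 7) (nat_lit 9) (nat_lit 0) (nat_lit 19) TL2 CL1 CL2 = true := by decide +kernel
def st2_19_0 : starCk (nat_lit 61) (nat_lit 7) (nat_lit 1) (nat_lit 3) (nat_lit 94) (nat_lit 239) (nat_lit 256) C2_19 = true := by decide +kernel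
def sc2_19 : stCov (nat_lit 2) (nat_lit 239) (Rl.cons (nat_lit 239) (nat_lit 94) Rl.nil) C2_19 = true := by decide +kernel
def wf2_20 : wfC (nat_lit 61) (nat_lit 7) C2_20 = true := by decide +kernel
def rf2_20 : rfCk (nat_lit 61) (nat_lit 3) (nat_lit 61) (nat_lit 7) (nat_lit 9) (nat_lit 0) (nat_lit 20) TL2 CL1 CL2 = true := by decide +kernel
def st2_20_0 : starCk (nat_lit 61) (nat_lit 7) (nat_lit 1) (nat_lit 3) (nat_lit 50) (nat_lit 222) (nat_lit 16) C2_20 = true := by decide +kernel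
def sc2_20 : stCov (nat_lit 1) (nat_lit 222) (Rl.cons (nat_lit 222) (nat_lit 50) Rl.nil) C2_20 = true := by decide +kernel
def wf2_21 : wfC (nat_lit 61) (nat_lit 7) C2_21 = true := by decide +kernel
def rf2_21 : rfCk (nat_lit 61) (nat_lit 3) (nat_lit 61) (nat_lit 7) (nat_lit 9) (nat_lit 0) (nat_lit 21) TL2 CL1 CL2 = true := by decide +kernel
def st2_21_0 : starCk (nat_lit 61) (nat_lit 7) (nat_lit 1) (nat_lit 3) (nat_lit 95) (nat_lit 124) (nat_lit 4096) C2_21 = true := by decide +kernel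
def sc2_21 : stCov (nat_lit 3) (nat_lit 124) (Rl.cons (nat_lit 124) (nat_lit 95) Rl.nil) C2_21 = true := by decide +kernel

end Pool.Agent.NNr.R15_1_3_4
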