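import Pool.Agent.NNr.R15_1_3_4.D2

set_option linter.all false
set_option maxRecDepth 1000000
namespace Pool.Agent.NNr.R15_1_3_4

open Pool.Agent.NNe

def ti2_0 : tileCk (nat_lit 61) (nat_lit 7) (nat_lit 2) (nat_lit 3) (nat_lit 157) (nat_lit 15) (nat_lit 22) ZL2_0 CL2 = true := by decide +kernel
def zl2_0 : zlOK (nat_lit 157) ZL2_0 = true := by decide +kernel
def ti2_1 : tileCk (nat_lit 61) (nat_lit 7) (nat_lit 2) (nat_lit 3) (nat_lit 158) (nat_lit 15) (nat_lit 22) ZL2_1 CL2 = true := by decide +kernel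
def zl2_1 : zlOK (nat_lit 158) ZL2_1 = true := by decide +kernel

end Pool.Agent.NNr.R15_1_3_4
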