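import Pool.Agent.NNe.Chk

set_option linter.all false
set_option maxRecDepth 1000000
namespace Pool.Agent.NNr.R15_1_3_4

open Pool.Agent.NNe

noncomputable def SI4_0 : Nat := (nat_lit 0x400)
noncomputable def SW4_0 : Nat := (nat_lit 0x2000)
noncomputable def RV4_0 : Nat := (nat_lit 0x418001188002)
noncomputable def CO4_0 : Nat := (nat_lit 0x2a80c026544)
noncomputable def Y4_0_0_1 : Nat := (nat_lit 0x49)
noncomputable def C4_0 : Cd := (Cd.mk (nat_lit 2) (nat_lit 4) (nat_lit 1024) SI4_0 SW4_0 RV4_0 CO4_0 (Sl.cons (Sd.mk (nat_lit 9) (nat_lit 8) (nat_lit 0) (nat_lit 1) (Sb.cons (nat_lit 8) (nat_lit 0) (nat_lit 1) Sb.nil) (Bl.r Y4_0_0_1 (nat_lit 1) Bl.nil)) (Sl.cons (Sd.mk (nat_lit 10) (nat_lit 8) (nat_lit 1) (nat_lit 1) (Sb.cons (nat_lit 8) (nat_lit 0) (nat_lit 1) Sb.nil) (Bl.c Y4_0_0_1 (nat_lit 3) (nat_lit 0) Bl.nil)) Sl.nil)))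
noncomputable def C4_1 : Cd := (Cd.mk (nat_lit 0) (nat_lit 5) (nat_lit 320) (nat_lit 0) (nat_lit 0) (nat_lit 0) (nat_lit 0) Sl.nil)
noncomputable def C4_2 : Cd := (Cd.mk (nat_lit 0) (nat_lit 5) (nat_lit 785) (nat_lit 0) (nat_lit 0) (nat_lit 0) (nat_lit 0) Sl.nil)
noncomputable def C4_3 : Cd := (Cd.mk (nat_lit 0) (nat_lit 6) (nat_lit 81) (nat_lit 0) (nat_lit 0) (nat_lit 0) (nat_lit 0) Sl.nil)
noncomputable def SI4_4 : Nat := (nat_lit 0x200400)
noncomputable def SW4_4 : Nat := (nat_lit 0x8000001)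
noncomputable def RV4_4 : Nat := (nat_lit 0x880000418000418002)
noncomputable def CO4_4 : Nat := (nat_lit 0x1568001004c00110c)
noncomputable def Y4_4_1_2 : Nat := (nat_lit 0x48)
noncomputable def C4_4 : Cd := (Cd.mk (nat_lit 3) (nat_lit 6) (nat_lit 546) SI4_4 SW4_4 RV4_4 CO4_4 (Sl.cons (Sd.mk (nat_lit 0) (nat_lit 0) (nat_lit 0) (nat_lit 1) (Sb.cons (nat_lit 4) (nat_lit 0) (nat_lit 1) Sb.nil) Bl.nil) (Sl.cons (Sd.mk (nat_lit 4) (nat_lit 4) (nat_lit 1) (nat_lit 1) (Sb.cons (nat_lit 0) (nat_lit 0) (nat_lit 1) Sb.nil) (Bl.r Y4_4_1_2 (nat_lit 2) Bl.nil)) (Sl.cons (Sd.mk (nat_lit 5) (nat_lit 4) (nat_lit 2) (nat_lit 1) (Sb.cons (nat_lit 4) (nat_lit 0) (nat_lit 1) Sb.nil) (Bl.c Y4_4_1_2 (nat_lit 3) (nat_lit 1) Bl.nil)) Sl.nil))))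
noncomputable def C4_5 : Cd := (Cd.mk (nat_lit 0) (nat_lit 7) (nat_lit 307) (nat_lit 0) (nat_lit 0) (nat_lit 0) (nat_lit 0) Sl.nil)
noncomputable def C4_6 : Cd := (Cd.mk (nat_lit 0) (nat_lit 7) (nat_lit 772) (nat_lit 0) (nat_lit 0) (nat_lit 0) (nat_lit 0) Sl.nil)
noncomputable def SI4_7 : Nat := (nat_lit 0x40100000)
noncomputable def SW4_7 : Nat := (nat_lit 0x18004004000)
noncomputable def RV4_7 : Nat := (nat_lit 0x28e00028e00128e00228e003)
noncomputable def CO4_7 : Nat := (nat_lit 0x11007010047001107000147)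
noncomputable def C4_7 : Cd := (Cd.mk (nat_lit 4) (nat_lit 8) (nat_lit 68) SI4_7 SW4_7 RV4_7 CO4_7 (Sl.cons (Sd.mk (nat_lit 0) (nat_lit 0) (nat_lit 0) (nat_lit 2) (Sb.cons (nat_lit 0) (nat_lit 0) (nat_lit 1) (Sb.cons (nat_lit 4) (nat_lit 1) (nat_lit 1) Sb.nil)) Bl.nil) (Sl.cons (Sd.mk (nat_lit 4) (nat_lit 4) (nat_lit 2) (nat_lit 2) (Sb.cons (nat_lit 0) (nat_lit 0) (nat_lit 1) (Sb.cons (nat_lit 4) (nat_lit 1) (nat_lit 1) Sb.nil)) Bl.nil) Sl.nil)))
noncomputable def C4_8 : Cd := (Cd.mk (nat_lit 0) (nat_lit 8) (nat_lit 533) (nat_lit 0) (nat_lit 0) (nat_lit 0) (nat_lit 0) Sl.nil)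
noncomputable def C4_9 : Cd := (Cd.mk (nat_lit 0) (nat_lit 9) (nat_lit 294) (nat_lit 0) (nat_lit 0) (nat_lit 0) (nat_lit 0) Sl.nil)
noncomputable def C4_10 : Cd := (Cd.mk (nat_lit 0) (nat_lit 10) (nat_lit 55) (nat_lit 0) (nat_lit 0) (nat_lit 0) (nat_lit 0) Sl.nil)
noncomputable def C4_11 : Cd := (Cd.mk (nat_lit 0) (nat_lit 10) (nat_lit 520) (nat_lit 0) (nat_lit 0) (nat_lit 0) (nat_lit 0) Sl.nil)
noncomputable def SI4_12 : Nat := (nat_lit 0x200400)
noncomputable def SW4_12 : Nat := (nat_lit 0x2002)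
noncomputable def RV4_12 : Nat := (nat_lit 0x188000080001188001)
noncomputable def CO4_12 : Nat := (nat_lit 0x10044008a80001104)
noncomputable def Y4_12_1_0 : Nat := (nat_lit 0x48)
noncomputable def C4_12 : Cd := (Cd.mk (nat_lit 3) (nat_lit 11) (nat_lit 281) SI4_12 SW4_12 RV4_12 CO4_12 (Sl.cons (Sd.mk (nat_lit 0) (nat_lit 0) (nat_lit 0) (nat_lit 1) (Sb.cons (nat_lit 4) (nat_lit 0) (nat_lit 1) Sb.nil) (Bl.c Y4_12_1_0 (nat_lit 3) (nat_lit 1) Bl.nil)) (Sl.cons (Sd.mk (nat_lit 2) (nat_lit 0) (nat_lit 1) (nat_lit 1) (Sb.cons (nat_lit 0) (nat_lit 0) (nat_lit 1) Sb.nil) (Bl.r Y4_12_1_0 (nat_lit 0) Bl.nil)) (Sl.cons (Sd.mk (nat_lit 4) (nat_lit 4) (nat_lit 2) (nat_lit 1) (Sb.cons (nat_lit 0) (nat_lit 0) (nat_lit 1) Sb.nil) Bl.nil) Sl.nil))))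
noncomputable def C4_13 : Cd := (Cd.mk (nat_lit 0) (nat_lit 12) (nat_lit 42) (nat_lit 0) (nat_lit 0) (nat_lit 0) (nat_lit 0) Sl.nil)
noncomputable def C4_14 : Cd := (Cd.mk (nat_lit 0) (nat_lit 13) (nat_lit 268) (nat_lit 0) (nat_lit 0) (nat_lit 0) (nat_lit 0) Sl.nil)
noncomputable def C4_15 : Cd := (Cd.mk (nat_lit 0) (nat_lit 14) (nat_lit 29) (nat_lit 0) (nat_lit 0) (nat_lit 0) (nat_lit 0) Sl.nil)
noncomputable def C4_16 : Cd := (Cd.mk (nat_lit 0) (nat_lit 3) (nat_lit 4608) (nat_lit 0) (nat_lit 0) (nat_lit 0) (nat_lit 0) Sl.nil)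
noncomputable def C4_17 : Cd := (Cd.mk (nat_lit 0) (nat_lit 4) (nat_lit 4369) (nat_lit 0) (nat_lit 0) (nat_lit 0) (nat_lit 0) Sl.nil)
noncomputable def C4_18 : Cd := (Cd.mk (nat_lit 0) (nat_lit 5) (nat_lit 4130) (nat_lit 0) (nat_lit 0) (nat_lit 0) (nat_lit 0) Sl.nil)
noncomputable def C4_19 : Cd := (Cd.mk (nat_lit 0) (nat_lit 6) (nat_lit 4356) (nat_lit 0) (nat_lit 0) (nat_lit 0) (nat_lit 0) Sl.nil)
noncomputable def C4_20 : Cd := (Cd.mk (nat_lit 0) (nat_lit 7) (nat_lit 4117) (nat_lit 0) (nat_lit 0) (nat_lit 0) (nat_lit 0) Sl.nil)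
noncomputable def C4_21 : Cd := (Cd.mk (nat_lit 0) (nat_lit 9) (nat_lit 4104) (nat_lit 0) (nat_lit 0) (nat_lit 0) (nat_lit 0) Sl.nil)
noncomputable def CL4 : Cl := (Cl.cons C4_0 (Cl.cons C4_1 (Cl.cons C4_2 (Cl.cons C4_3 (Cl.cons C4_4 (Cl.cons C4_5 (Cl.cons C4_6 (Cl.cons C4_7 (Cl.cons C4_8 (Cl.cons C4_9 (Cl.cons C4_10 (Cl.cons C4_11 (Cl.cons C4_12 (Cl.cons C4_13 (Cl.cons C4_14 (Cl.cons C4_15 (Cl.cons C4_16 (Cl.cons C4_17 (Cl.cons C4_18 (Cl.cons C4_19 (Cl.cons C4_20 (Cl.cons C4_21 Cl.nil))))))))))))))))))))))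
noncomputable def AL4_0 : Nat := (nat_lit 0x11dd7)
noncomputable def A44_0 : Nat := (nat_lit 0x1002)
noncomputable def IX4_0 : Nat := (nat_lit 0x1000000000000000000000000000000000000000000000000000000000000000000000000000000000000000000000000000000000000000000000000000000000000000000000000000000000000)
noncomputable def OL4_0 : Nat := (nat_lit 0x180004)
noncomputable def AL4_1 : Nat := (nat_lit 0)
noncomputable def A44_1 : Nat := (nat_lit 0)
noncomputable def IX4_1 : Nat := (nat_lit 0)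
noncomputable def OL4_1 : Nat := (nat_lit 0)
noncomputable def AL4_2 : Nat := (nat_lit 0)
noncomputable def A44_2 : Nat := (nat_lit 0)
noncomputable def IX4_2 : Nat := (nat_lit 0)
noncomputable def OL4_2 : Nat := (nat_lit 0)
noncomputable def AL4_3 : Nat := (nat_lit 0)
noncomputable def A44_3 : Nat := (nat_lit 0)
noncomputable def IX4_3 : Nat := (nat_lit 0)
noncomputable def OL4_3 : Nat := (nat_lit 0)
noncomputable def AL4_4 : Nat := (nat_lit 0x2000800001000004100000100)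
noncomputable def A44_4 : Nat := (nat_lit 0x1000004000000100)
noncomputable def IX4_4 : Nat := (nat_lit 0x2000000000000000000000000000000000000000000000000000000000000000000000000000000000000000000000000000000000000000000000000000000000000000000000000000000000000000000000000000000000000000000000000000000000000000000000000000000000000000000000000000000000000000000000000000000000000000000000100000000000000000000000000000000000000000000000000000000000000000000000000000000000000000000000000000000000000000000000000000000000000000000000000000000000000000000000000000000000000000000000000000000000000000000000000000000000000000000000000000000000000000000000000000000000000000000000000000000000000000000000000000000000000000000000000000000000000000000000000000000000000000000000000000000000000000000000000000000000000000000000000000000000000000000000000000000000000000000000000000000000000)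
noncomputable def OL4_4 : Nat := (nat_lit 0x3c004c0020)
noncomputable def AL4_5 : Nat := (nat_lit 0)
noncomputable def A44_5 : Nat := (nat_lit 0)
noncomputable def IX4_5 : Nat := (nat_lit 0)
noncomputable def OL4_5 : Nat := (nat_lit 0)
noncomputable def AL4_6 : Nat := (nat_lit 0)
noncomputable def A44_6 : Nat := (nat_lit 0)
noncomputable def IX4_6 : Nat := (nat_lit 0)
noncomputable def OL4_6 : Nat := (nat_lit 0)
noncomputable def AL4_7 : Nat := (nat_lit 0x100010408082)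
noncomputable def A44_7 : Nat := (nat_lit 0x10400082)
noncomputable def IX4_7 : Nat := (nat_lit 0x30000000000000000000000000000000000000000000000000000000000000000000000000000020000000000000000000000000000000000000000000000000000000000000000000000000000000000000000000000000000000000000000000000000000000000000000000000000000000000000000000000000000000000000000000000000010000000000000000000000000000000000000000000000000000000000000000000000000000000000000000000)
noncomputable def OL4_7 : Nat := (nat_lit 0xe0016000e0004)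
noncomputable def AL4_8 : Nat := (nat_lit 0)
noncomputable def A44_8 : Nat := (nat_lit 0)
noncomputable def IX4_8 : Nat := (nat_lit 0)
noncomputable def OL4_8 : Nat := (nat_lit 0)
noncomputable def AL4_9 : Nat := (nat_lit 0)
noncomputable def A44_9 : Nat := (nat_lit 0)
noncomputable def IX4_9 : Nat := (nat_lit 0)
noncomputable def OL4_9 : Nat := (nat_lit 0)
noncomputable def AL4_10 : Nat := (nat_lit 0)
noncomputable def A44_10 : Nat := (nat_lit 0)
noncomputable def IX4_10 : Nat := (nat_lit 0)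
noncomputable def OL4_10 : Nat := (nat_lit 0)
noncomputable def AL4_11 : Nat := (nat_lit 0)
noncomputable def A44_11 : Nat := (nat_lit 0)
noncomputable def IX4_11 : Nat := (nat_lit 0)
noncomputable def OL4_11 : Nat := (nat_lit 0)
noncomputable def AL4_12 : Nat := (nat_lit 0x700d08061)
noncomputable def A44_12 : Nat := (nat_lit 0x808040)
noncomputable def IX4_12 : Nat := (nat_lit 0x200000000000000000000000000000000000000000000000000000000000000000000000000000000000000000000000000000001000000000000000000000000000000000000000000000000000000000000000000000000000000000000000000000000000000000000000000000000000000000000000000000000000000000000000000000000000000000000000000000000000)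
noncomputable def OL4_12 : Nat := (nat_lit 0x17001e0018)
noncomputable def AL4_13 : Nat := (nat_lit 0)
noncomputable def A44_13 : Nat := (nat_lit 0)
noncomputable def IX4_13 : Nat := (nat_lit 0)
noncomputable def OL4_13 : Nat := (nat_lit 0)
noncomputable def AL4_14 : Nat := (nat_lit 0)
noncomputable def A44_14 : Nat := (nat_lit 0)
noncomputable def IX4_14 : Nat := (nat_lit 0)
noncomputable def OL4_14 : Nat := (nat_lit 0)
noncomputable def AL4_15 : Nat := (nat_lit 0)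
noncomputable def A44_15 : Nat := (nat_lit 0)
noncomputable def IX4_15 : Nat := (nat_lit 0)
noncomputable def OL4_15 : Nat := (nat_lit 0)
noncomputable def AL4_16 : Nat := (nat_lit 0)
noncomputable def A44_16 : Nat := (nat_lit 0)
noncomputable def IX4_16 : Nat := (nat_lit 0)
noncomputable def OL4_16 : Nat := (nat_lit 0)
noncomputable def AL4_17 : Nat := (nat_lit 0)
noncomputable def A44_17 : Nat := (nat_lit 0)
noncomputable def IX4_17 : Nat := (nat_lit 0)
noncomputable def OL4_17 : Nat := (nat_lit 0)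
noncomputable def AL4_18 : Nat := (nat_lit 0)
noncomputable def A44_18 : Nat := (nat_lit 0)
noncomputable def IX4_18 : Nat := (nat_lit 0)
noncomputable def OL4_18 : Nat := (nat_lit 0)
noncomputable def AL4_19 : Nat := (nat_lit 0)
noncomputable def A44_19 : Nat := (nat_lit 0)
noncomputable def IX4_19 : Nat := (nat_lit 0)
noncomputable def OL4_19 : Nat := (nat_lit 0)
noncomputable def AL4_20 : Nat := (nat_lit 0)
noncomputable def A44_20 : Nat := (nat_lit 0)
noncomputable def IX4_20 : Nat := (nat_lit 0)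
noncomputable def OL4_20 : Nat := (nat_lit 0)
noncomputable def AL4_21 : Nat := (nat_lit 0)
noncomputable def A44_21 : Nat := (nat_lit 0)
noncomputable def IX4_21 : Nat := (nat_lit 0)
noncomputable def OL4_21 : Nat := (nat_lit 0)
noncomputable def TL4 : Tl := (Tl.cons (Tr.mk AL4_0 A44_0 IX4_0 OL4_0) (Tl.cons (Tr.mk AL4_1 A44_1 IX4_1 OL4_1) (Tl.cons (Tr.mk AL4_2 A44_2 IX4_2 OL4_2) (Tl.cons (Tr.mk AL4_3 A44_3 IX4_3 OL4_3) (Tl.cons (Tr.mk AL4_4 A44_4 IX4_4 OL4_4) (Tl.cons (Tr.mk AL4_5 A44_5 IX4_5 OL4_5) (Tl.cons (Tr.mk AL4_6 A44_6 IX4_6 OL4_6) (Tl.cons (Tr.mk AL4_7 A44_7 IX4_7 OL4_7) (Tl.cons (Tr.mk AL4_8 A44_8 IX4_8 OL4_8) (Tl.cons (Tr.mk AL4_9 A44_9 IX4_9 OL4_9) (Tl.cons (Tr.mk AL4_10 A44_10 IX4_10 OL4_10) (Tl.cons (Tr.mk AL4_11 A44_11 IX4_11 OL4_11) (Tl.cons (Tr.mk AL4_12 A44_12 IX4_12 OL4_12) (Tl.cons (Tr.mk AL4_13 A44_13 IX4_13 OL4_13) (Tl.cons (Tr.mk AL4_14 A44_14 IX4_14 OL4_14) (Tl.cons (Tr.mk AL4_15 A44_15 IX4_15 OL4_15)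 (Tl.cons (Tr.mk AL4_16 A44_16 IX4_16 OL4_16) (Tl.cons (Tr.mk AL4_17 A44_17 IX4_17 OL4_17) (Tl.cons (Tr.mk AL4_18 A44_18 IX4_18 OL4_18) (Tl.cons (Tr.mk AL4_19 A44_19 IX4_19 OL4_19) (Tl.cons (Tr.mk AL4_20 A44_20 IX4_20 OL4_20) (Tl.cons (Tr.mk AL4_21 A44_21 IX4_21 OL4_21) Tl.nil))))))))))))))))))))))
noncomputable def ZL4_0 : Zl := (Zl.cons (nat_lit 0) (nat_lit 0) (nat_lit 1) (Zl.cons (nat_lit 0) (nat_lit 0) (nat_lit 0) (Zl.cons (nat_lit 0) (nat_lit 0) (nat_lit 0) (Zl.cons (nat_lit 0) (nat_lit 0) (nat_lit 0) (Zl.cons (nat_lit 0) (nat_lit 0) (nat_lit 0) (Zl.cons (nat_lit 0) (nat_lit 0) (nat_lit 0) (Zl.cons (nat_lit 0) (nat_lit 0) (nat_lit 0) (Zl.cons (nat_lit 0) (nat_lit 0) (nat_lit 0) (Zl.cons (nat_lit 0) (nat_lit 0) (nat_lit 0) (Zl.cons (nat_lit 0) (nat_lit 0) (nat_lit 0) (Zl.cons (nat_lit 0) (nat_lit 0) (nat_lit 0) (Zl.cons (nat_lit 0) (nat_lit 0) (nat_lit 0) (Zl.cons (nat_lit 0) (nat_lit 0) (nat_lit 0) (Zl.cons (nat_lit 0)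 (nat_lit 0) (nat_lit 0) (Zl.cons (nat_lit 0) (nat_lit 0) (nat_lit 0) (Zl.cons (nat_lit 0) (nat_lit 0) (nat_lit 0) (Zl.cons (nat_lit 0) (nat_lit 0) (nat_lit 0) (Zl.cons (nat_lit 0) (nat_lit 0) (nat_lit 0) (Zl.cons (nat_lit 0) (nat_lit 0) (nat_lit 0) (Zl.cons (nat_lit 0) (nat_lit 0) (nat_lit 0) (Zl.cons (nat_lit 0) (nat_lit 0) (nat_lit 0) (Zl.cons (nat_lit 0) (nat_lit 0) (nat_lit 0) Zl.nil))))))))))))))))))))))
noncomputable def ZZ4 : ZZ := (ZZ.cons ZL4_0 ZZ.nil)

end Pool.Agent.NNr.R15_1_3_4
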