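import Pool.Agent.NNr.R15_1_3_4.D0
import Pool.Agent.NNr.R15_1_3_4.D1
import Pool.Agent.NNr.R15_1_3_4.D2
import Pool.Agent.NNr.R15_1_3_4.D3
import Pool.Agent.NNr.R15_1_3_4.D4
import Pool.Agent.NNr.R15_1_3_4.D5
import Pool.Agent.NNe.Slots

set_option linter.all false
set_option maxRecDepth 1000000
namespace Pool.Agent.NNr.R15_1_3_4

open Pool.Agent.NNe

def ti2_2 : tileCk (nat_lit 61) (nat_lit 7) (nat_lit 2) (nat_lit 3) (nat_lit 275) (nat_lit 15) (nat_lit 22) ZL2_2 CL2 = true := by decide +kernel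
def zl2_2 : zlOK (nat_lit 275) ZL2_2 = true := by decide +kernel
def tc2_0 : tiCov (nat_lit 2) (nat_lit 0) ZZ2 C2_0 = true := by decide +kernel
def tc2_1 : tiCov (nat_lit 2) (nat_lit 1) ZZ2 C2_1 = true := by decide +kernel
def tc2_2 : tiCov (nat_lit 2) (nat_lit 2) ZZ2 C2_2 = true := by decide +kernel
def tc2_3 : tiCov (nat_lit 2) (nat_lit 3) ZZ2 C2_3 = true := by decide +kernel
def tc2_4 : tiCov (nat_lit 2) (nat_lit 4) ZZ2 C2_4 = true := by decide +kernel
def tc2_5 : tiCov (nat_lit 2) (nat_lit 5) ZZ2 C2_5 = true := by decide +kernel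
def tc2_6 : tiCov (nat_lit 2) (nat_lit 6) ZZ2 C2_6 = true := by decide +kernel
def tc2_7 : tiCov (nat_lit 2) (nat_lit 7) ZZ2 C2_7 = true := by decide +kernel
def tc2_8 : tiCov (nat_lit 2) (nat_lit 8) ZZ2 C2_8 = true := by decide +kernel
def tc2_9 : tiCov (nat_lit 2) (nat_lit 9) ZZ2 C2_9 = true := by decide +kernel
def tc2_10 : tiCov (nat_lit 2) (nat_lit 10) ZZ2 C2_10 = true := by decide +kernel
def tc2_11 : tiCov (nat_lit 2) (nat_lit 11) ZZ2 C2_11 = true := by decide +kernel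
def tc2_12 : tiCov (nat_lit 2) (nat_lit 12) ZZ2 C2_12 = true := by decide +kernel
def tc2_13 : tiCov (nat_lit 2) (nat_lit 13) ZZ2 C2_13 = true := by decide +kernel
def tc2_16 : tiCov (nat_lit 2) (nat_lit 16) ZZ2 C2_16 = true := by decide +kernel
def tc2_17 : tiCov (nat_lit 2) (nat_lit 17) ZZ2 C2_17 = true := by decide +kernel
def tc2_18 : tiCov (nat_lit 2) (nat_lit 18) ZZ2 C2_18 = true := by decide +kernel
def tc2_19 : tiCov (nat_lit 2) (nat_lit 19) ZZ2 C2_19 = true := by decide +kernel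
def tc2_20 : tiCov (nat_lit 2) (nat_lit 20) ZZ2 C2_20 = true := by decide +kernel
def tc2_21 : tiCov (nat_lit 2) (nat_lit 21) ZZ2 C2_21 = true := by decide +kernel
def wf3_0 : wfC (nat_lit 50) (nat_lit 5) C3_0 = true := by decide +kernel
def rf3_0 : rfCk (nat_lit 61) (nat_lit 7) (nat_lit 50) (nat_lit 5) (nat_lit 9) (nat_lit 0) (nat_lit 0) TL3 CL2 CL3 = true := by decide +kernel
def st3_0_0 : starCk (nat_lit 50) (nat_lit 5) (nat_lit 1) (nat_lit 2) (nat_lit 7) (nat_lit 0) (nat_lit 256) C3_0 = true := by decide +kernel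
def sc3_0 : stCov (nat_lit 2) (nat_lit 0) (Rl.cons (nat_lit 0) (nat_lit 7) Rl.nil) C3_0 = true := by decide +kernel
def wf3_1 : wfC (nat_lit 50) (nat_lit 5) C3_1 = true := by decide +kernel
def rf3_1 : rfCk (nat_lit 61) (nat_lit 7) (nat_lit 50) (nat_lit 5) (nat_lit 9) (nat_lit 0) (nat_lit 1) TL3 CL2 CL3 = true := by decide +kernel
def st3_1_0 : starCk (nat_lit 50) (nat_lit 5) (nat_lit 1) (nat_lit 2) (nat_lit 1) (nat_lit 10) (nat_lit 256) C3_1 = true := by decide +kernel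
def sc3_1 : stCov (nat_lit 2) (nat_lit 10) (Rl.cons (nat_lit 10) (nat_lit 1) Rl.nil) C3_1 = true := by decide +kernel
def wf3_2 : wfC (nat_lit 50) (nat_lit 5) C3_2 = true := by decide +kernel
def rf3_2 : rfCk (nat_lit 61) (nat_lit 7) (nat_lit 50) (nat_lit 5) (nat_lit 9) (nat_lit 0) (nat_lit 2) TL3 CL2 CL3 = true := by decide +kernel
def st3_2_0 : starCk (nat_lit 50) (nat_lit 5) (nat_lit 1) (nat_lit 2) (nat_lit 6) (nat_lit 7) (nat_lit 1) C3_2 = true := by decide +kernel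
def sc3_2 : stCov (nat_lit 0) (nat_lit 7) (Rl.cons (nat_lit 7) (nat_lit 6) Rl.nil) C3_2 = true := by decide +kernel
def wf3_3 : wfC (nat_lit 50) (nat_lit 5) C3_3 = true := by decide +kernel
def rf3_3 : rfCk (nat_lit 61) (nat_lit 7) (nat_lit 50) (nat_lit 5) (nat_lit 9) (nat_lit 0) (nat_lit 3) TL3 CL2 CL3 = true := by decide +kernel
def st3_3_0 : starCk (nat_lit 50) (nat_lit 5) (nat_lit 1) (nat_lit 2) (nat_lit 2) (nat_lit 4) (nat_lit 1) C3_3 = true := by decide +kernel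
def sc3_3 : stCov (nat_lit 0) (nat_lit 4) (Rl.cons (nat_lit 4) (nat_lit 2) Rl.nil) C3_3 = true := by decide +kernel
def wf3_4 : wfC (nat_lit 50) (nat_lit 5) C3_4 = true := by decide +kernel
def rf3_4 : rfCk (nat_lit 61) (nat_lit 7) (nat_lit 50) (nat_lit 5) (nat_lit 9) (nat_lit 0) (nat_lit 4) TL3 CL2 CL3 = true := by decide +kernel
def st3_4_0 : starCk (nat_lit 50) (nat_lit 5) (nat_lit 1) (nat_lit 2) (nat_lit 14) (nat_lit 73) (nat_lit 256) C3_4 = true := by decide +kernel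
def sc3_4 : stCov (nat_lit 2) (nat_lit 73) (Rl.cons (nat_lit 73) (nat_lit 14) Rl.nil) C3_4 = true := by decide +kernel
def wf3_5 : wfC (nat_lit 50) (nat_lit 5) C3_5 = true := by decide +kernel
def rf3_5 : rfCk (nat_lit 61) (nat_lit 7) (nat_lit 50) (nat_lit 5) (nat_lit 9) (nat_lit 0) (nat_lit 5) TL3 CL2 CL3 = true := by decide +kernel
def st3_5_0 : starCk (nat_lit 50) (nat_lit 5) (nat_lit 1) (nat_lit 2) (nat_lit 9) (nat_lit 80) (nat_lit 256) C3_5 = true := by decide +kernel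
def sc3_5 : stCov (nat_lit 2) (nat_lit 80) (Rl.cons (nat_lit 80) (nat_lit 9) Rl.nil) C3_5 = true := by decide +kernel
def wf3_7 : wfC (nat_lit 50) (nat_lit 5) C3_7 = true := by decide +kernel
def rf3_7 : rfCk (nat_lit 61) (nat_lit 7) (nat_lit 50) (nat_lit 5) (nat_lit 9) (nat_lit 0) (nat_lit 7) TL3 CL2 CL3 = true := by decide +kernel
def st3_7_0 : starCk (nat_lit 50) (nat_lit 5) (nat_lit 1) (nat_lit 2) (nat_lit 6) (nat_lit 13) (nat_lit 1) C3_7 = true := by decide +kernel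
def sc3_7 : stCov (nat_lit 0) (nat_lit 13) (Rl.cons (nat_lit 13) (nat_lit 6) Rl.nil) C3_7 = true := by decide +kernel
def wf3_8 : wfC (nat_lit 50) (nat_lit 5) C3_8 = true := by decide +kernel
def rf3_8 : rfCk (nat_lit 61) (nat_lit 7) (nat_lit 50) (nat_lit 5) (nat_lit 9) (nat_lit 0) (nat_lit 8) TL3 CL2 CL3 = true := by decide +kernel
def st3_8_0 : starCk (nat_lit 50) (nat_lit 5) (nat_lit 1) (nat_lit 2) (nat_lit 7) (nat_lit 25) (nat_lit 16) C3_8 = true := by decide +kernel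
def sc3_8 : stCov (nat_lit 1) (nat_lit 25) (Rl.cons (nat_lit 25) (nat_lit 7) Rl.nil) C3_8 = true := by decide +kernel
def wf3_9 : wfC (nat_lit 50) (nat_lit 5) C3_9 = true := by decide +kernel
def rf3_9 : rfCk (nat_lit 61) (nat_lit 7) (nat_lit 50) (nat_lit 5) (nat_lit 9) (nat_lit 0) (nat_lit 9) TL3 CL2 CL3 = true := by decide +kernel
def st3_9_0 : starCk (nat_lit 50) (nat_lit 5) (nat_lit 1) (nat_lit 2) (nat_lit 6) (nat_lit 69) (nat_lit 256) C3_9 = true := by decide +kernel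
def sc3_9 : stCov (nat_lit 2) (nat_lit 69) (Rl.cons (nat_lit 69) (nat_lit 6) Rl.nil) C3_9 = true := by decide +kernel
def wf3_10 : wfC (nat_lit 50) (nat_lit 5) C3_10 = true := by decide +kernel
def rf3_10 : rfCk (nat_lit 61) (nat_lit 7) (nat_lit 50) (nat_lit 5) (nat_lit 9) (nat_lit 0) (nat_lit 10) TL3 CL2 CL3 = true := by decide +kernel
def st3_10_0 : starCk (nat_lit 50) (nat_lit 5) (nat_lit 1) (nat_lit 2) (nat_lit 19) (nat_lit 25) (nat_lit 16) C3_10 = true := by decide +kernel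
def sc3_10 : stCov (nat_lit 1) (nat_lit 25) (Rl.cons (nat_lit 25) (nat_lit 19) Rl.nil) C3_10 = true := by decide +kernel
def wf3_11 : wfC (nat_lit 50) (nat_lit 5) C3_11 = true := by decide +kernel
def rf3_11 : rfCk (nat_lit 61) (nat_lit 7) (nat_lit 50) (nat_lit 5) (nat_lit 9) (nat_lit 0) (nat_lit 11) TL3 CL2 CL3 = true := by decide +kernel
def st3_11_0 : starCk (nat_lit 50) (nat_lit 5) (nat_lit 1) (nat_lit 2) (nat_lit 2) (nat_lit 10) (nat_lit 256) C3_11 = true := by decide +kernel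
def sc3_11 : stCov (nat_lit 2) (nat_lit 10) (Rl.cons (nat_lit 10) (nat_lit 2) Rl.nil) C3_11 = true := by decide +kernel
def wf3_12 : wfC (nat_lit 50) (nat_lit 5) C3_12 = true := by decide +kernel
def rf3_12 : rfCk (nat_lit 61) (nat_lit 7) (nat_lit 50) (nat_lit 5) (nat_lit 9) (nat_lit 0) (nat_lit 12) TL3 CL2 CL3 = true := by decide +kernel
def st3_12_0 : starCk (nat_lit 50) (nat_lit 5) (nat_lit 1) (nat_lit 2) (nat_lit 1) (nat_lit 33) (nat_lit 256) C3_12 = true := by decide +kernel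
def sc3_12 : stCov (nat_lit 2) (nat_lit 33) (Rl.cons (nat_lit 33) (nat_lit 1) Rl.nil) C3_12 = true := by decide +kernel
def wf3_13 : wfC (nat_lit 50) (nat_lit 5) C3_13 = true := by decide +kernel
def rf3_13 : rfCk (nat_lit 61) (nat_lit 7) (nat_lit 50) (nat_lit 5) (nat_lit 9) (nat_lit 0) (nat_lit 13) TL3 CL2 CL3 = true := by decide +kernel
def st3_13_0 : starCk (nat_lit 50) (nat_lit 5) (nat_lit 1) (nat_lit 2) (nat_lit 6) (nat_lit 14) (nat_lit 16) C3_13 = true := by decide +kernel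
def sc3_13 : stCov (nat_lit 1) (nat_lit 14) (Rl.cons (nat_lit 14) (nat_lit 6) Rl.nil) C3_13 = true := by decide +kernel
def wf3_16 : wfC (nat_lit 50) (nat_lit 5) C3_16 = true := by decide +kernel
def rf3_16 : rfCk (nat_lit 61) (nat_lit 7) (nat_lit 50) (nat_lit 5) (nat_lit 9) (nat_lit 0) (nat_lit 16) TL3 CL2 CL3 = true := by decide +kernel
def st3_16_0 : starCk (nat_lit 50) (nat_lit 5) (nat_lit 1) (nat_lit 2) (nat_lit 72) (nat_lit 93) (nat_lit 4096) C3_16 = true := by decide +kernel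
def sc3_16 : stCov (nat_lit 3) (nat_lit 93) (Rl.cons (nat_lit 93) (nat_lit 72) Rl.nil) C3_16 = true := by decide +kernel
def wf3_17 : wfC (nat_lit 50) (nat_lit 5) C3_17 = true := by decide +kernel
def rf3_17 : rfCk (nat_lit 61) (nat_lit 7) (nat_lit 50) (nat_lit 5) (nat_lit 9) (nat_lit 0) (nat_lit 17) TL3 CL2 CL3 = true := by decide +kernel
def st3_17_0 : starCk (nat_lit 50) (nat_lit 5) (nat_lit 1) (nat_lit 2) (nat_lit 19) (nat_lit 45) (nat_lit 16) C3_17 = true := by decide +kernel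
def sc3_17 : stCov (nat_lit 1) (nat_lit 45) (Rl.cons (nat_lit 45) (nat_lit 19) Rl.nil) C3_17 = true := by decide +kernel
def wf3_18 : wfC (nat_lit 50) (nat_lit 5) C3_18 = true := by decide +kernel
def rf3_18 : rfCk (nat_lit 61) (nat_lit 7) (nat_lit 50) (nat_lit 5) (nat_lit 9) (nat_lit 0) (nat_lit 18) TL3 CL2 CL3 = true := by decide +kernel
def st3_18_0 : starCk (nat_lit 50) (nat_lit 5) (nat_lit 1) (nat_lit 2) (nat_lit 31) (nat_lit 61) (nat_lit 4096) C3_18 = true := by decide +kernel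
def sc3_18 : stCov (nat_lit 3) (nat_lit 61) (Rl.cons (nat_lit 61) (nat_lit 31) Rl.nil) C3_18 = true := by decide +kernel
def wf3_19 : wfC (nat_lit 50) (nat_lit 5) C3_19 = true := by decide +kernel
def rf3_19 : rfCk (nat_lit 61) (nat_lit 7) (nat_lit 50) (nat_lit 5) (nat_lit 9) (nat_lit 0) (nat_lit 19) TL3 CL2 CL3 = true := by decide +kernel
def st3_19_0 : starCk (nat_lit 50) (nat_lit 5) (nat_lit 1) (nat_lit 2) (nat_lit 19) (nat_lit 24) (nat_lit 256) C3_19 = true := by decide +kernel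
def sc3_19 : stCov (nat_lit 2) (nat_lit 24) (Rl.cons (nat_lit 24) (nat_lit 19) Rl.nil) C3_19 = true := by decide +kernel
def wf3_20 : wfC (nat_lit 50) (nat_lit 5) C3_20 = true := by decide +kernel
def rf3_20 : rfCk (nat_lit 61) (nat_lit 7) (nat_lit 50) (nat_lit 5) (nat_lit 9) (nat_lit 0) (nat_lit 20) TL3 CL2 CL3 = true := by decide +kernel
def st3_20_0 : starCk (nat_lit 50) (nat_lit 5) (nat_lit 1) (nat_lit 2) (nat_lit 14) (nat_lit 50) (nat_lit 16) C3_20 = true := by decide +kernel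
def sc3_20 : stCov (nat_lit 1) (nat_lit 50) (Rl.cons (nat_lit 50) (nat_lit 14) Rl.nil) C3_20 = true := by decide +kernel
def wf3_21 : wfC (nat_lit 50) (nat_lit 5) C3_21 = true := by decide +kernel
def rf3_21 : rfCk (nat_lit 61) (nat_lit 7) (nat_lit 50) (nat_lit 5) (nat_lit 9) (nat_lit 0) (nat_lit 21) TL3 CL2 CL3 = true := by decide +kernel
def st3_21_0 : starCk (nat_lit 50) (nat_lit 5) (nat_lit 1) (nat_lit 2) (nat_lit 20) (nat_lit 36) (nat_lit 4096) C3_21 = true := by decide +kernel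
def sc3_21 : stCov (nat_lit 3) (nat_lit 36) (Rl.cons (nat_lit 36) (nat_lit 20) Rl.nil) C3_21 = true := by decide +kernel
def ti3_0 : tileCk (nat_lit 50) (nat_lit 5) (nat_lit 2) (nat_lit 2) (nat_lit 141) (nat_lit 15) (nat_lit 22) ZL3_0 CL3 = true := by decide +kernel
def zl3_0 : zlOK (nat_lit 141) ZL3_0 = true := by decide +kernel
def ti3_1 : tileCk (nat_lit 50) (nat_lit 5) (nat_lit 2) (nat_lit 2) (nat_lit 14) (nat_lit 15) (nat_lit 22) ZL3_1 CL3 = true := by decide +kernel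
def zl3_1 : zlOK (nat_lit 14) ZL3_1 = true := by decide +kernel
def tc3_0 : tiCov (nat_lit 2) (nat_lit 0) ZZ3 C3_0 = true := by decide +kernel
def tc3_1 : tiCov (nat_lit 2) (nat_lit 1) ZZ3 C3_1 = true := by decide +kernel
def tc3_2 : tiCov (nat_lit 2) (nat_lit 2) ZZ3 C3_2 = true := by decide +kernel
def tc3_3 : tiCov (nat_lit 2) (nat_lit 3) ZZ3 C3_3 = true := by decide +kernel
def tc3_4 : tiCov (nat_lit 2) (nat_lit 4) ZZ3 C3_4 = true := by decide +kernel
def tc3_5 : tiCov (nat_lit 2) (nat_lit 5) ZZ3 C3_5 = true := by decide +kernel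
def tc3_7 : tiCov (nat_lit 2) (nat_lit 7) ZZ3 C3_7 = true := by decide +kernel
def tc3_8 : tiCov (nat_lit 2) (nat_lit 8) ZZ3 C3_8 = true := by decide +kernel
def tc3_9 : tiCov (nat_lit 2) (nat_lit 9) ZZ3 C3_9 = true := by decide +kernel
def tc3_10 : tiCov (nat_lit 2) (nat_lit 10) ZZ3 C3_10 = true := by decide +kernel
def tc3_11 : tiCov (nat_lit 2) (nat_lit 11) ZZ3 C3_11 = true := by decide +kernel
def tc3_12 : tiCov (nat_lit 2) (nat_lit 12) ZZ3 C3_12 = true := by decide +kernel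
def tc3_13 : tiCov (nat_lit 2) (nat_lit 13) ZZ3 C3_13 = true := by decide +kernel
def tc3_16 : tiCov (nat_lit 2) (nat_lit 16) ZZ3 C3_16 = true := by decide +kernel
def tc3_17 : tiCov (nat_lit 2) (nat_lit 17) ZZ3 C3_17 = true := by decide +kernel
def tc3_18 : tiCov (nat_lit 2) (nat_lit 18) ZZ3 C3_18 = true := by decide +kernel
def tc3_19 : tiCov (nat_lit 2) (nat_lit 19) ZZ3 C3_19 = true := by decide +kernel
def tc3_20 : tiCov (nat_lit 2) (nat_lit 20) ZZ3 C3_20 = true := by decide +kernel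
def tc3_21 : tiCov (nat_lit 2) (nat_lit 21) ZZ3 C3_21 = true := by decide +kernel
def wf4_0 : wfC (nat_lit 3) (nat_lit 3) C4_0 = true := by decide +kernel
def rf4_0 : rfCk (nat_lit 50) (nat_lit 5) (nat_lit 3) (nat_lit 3) (nat_lit 9) (nat_lit 0) (nat_lit 0) TL4 CL3 CL4 = true := by decide +kernel
def st4_0_0 : starCk (nat_lit 3) (nat_lit 3) (nat_lit 1) (nat_lit 1) (nat_lit 1) (nat_lit 0) (nat_lit 256) C4_0 = true := by decide +kernel
def sc4_0 : stCov (nat_lit 2) (nat_lit 0) (Rl.cons (nat_lit 0) (nat_lit 1) Rl.nil) C4_0 = true := by decide +kernel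
def wf4_4 : wfC (nat_lit 3) (nat_lit 3) C4_4 = true := by decide +kernel
def rf4_4 : rfCk (nat_lit 50) (nat_lit 5) (nat_lit 3) (nat_lit 3) (nat_lit 9) (nat_lit 0) (nat_lit 4) TL4 CL3 CL4 = true := by decide +kernel
def sc4_4 : stCov (nat_lit 0) (nat_lit 0) Rl.nil C4_4 = true := by decide +kernel
def wf4_7 : wfC (nat_lit 3) (nat_lit 3) C4_7 = true := by decide +kernel
def rf4_7 : rfCk (nat_lit 50) (nat_lit 5) (nat_lit 3) (nat_lit 3) (nat_lit 9) (nat_lit 0) (nat_lit 7) TL4 CL3 CL4 = true := by decide +kernel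
def sc4_7 : stCov (nat_lit 0) (nat_lit 0) Rl.nil C4_7 = true := by decide +kernel
def wf4_12 : wfC (nat_lit 3) (nat_lit 3) C4_12 = true := by decide +kernel
def rf4_12 : rfCk (nat_lit 50) (nat_lit 5) (nat_lit 3) (nat_lit 3) (nat_lit 9) (nat_lit 0) (nat_lit 12) TL4 CL3 CL4 = true := by decide +kernel
def sc4_12 : stCov (nat_lit 2) (nat_lit 0) Rl.nil C4_12 = true := by decide +kernel
def ti4_0 : tileCk (nat_lit 3) (nat_lit 3) (nat_lit 2) (nat_lit 1) (nat_lit 1) (nat_lit 15) (nat_lit 22) ZL4_0 CL4 = true := by decide +kernel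
def zl4_0 : zlOK (nat_lit 1) ZL4_0 = true := by decide +kernel
def tc4_0 : tiCov (nat_lit 2) (nat_lit 0) ZZ4 C4_0 = true := by decide +kernel
def tc4_4 : tiCov (nat_lit 2) (nat_lit 4) ZZ4 C4_4 = true := by decide +kernel
def tc4_7 : tiCov (nat_lit 2) (nat_lit 7) ZZ4 C4_7 = true := by decide +kernel
def tc4_12 : tiCov (nat_lit 2) (nat_lit 12) ZZ4 C4_12 = true := by decide +kernel
def wf1_14 : wfC (nat_lit 61) (nat_lit 3) C1_14 = true := by decide +kernel
def wf1_15 : wfC (nat_lit 61) (nat_lit 3) C1_15 = true := by decide +kernel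
def rf1_14 : rfCk (nat_lit 61) (nat_lit 5) (nat_lit 61) (nat_lit 3) (nat_lit 1) (nat_lit 262144) (nat_lit 14) TL1 CL0 CL1 = true := by decide +kernel
def rf1_15 : rfCk (nat_lit 61) (nat_lit 5) (nat_lit 61) (nat_lit 3) (nat_lit 1) (nat_lit 262144) (nat_lit 15) TL1 CL0 CL1 = true := by decide +kernel
def sc1_14 : stCov (nat_lit 0) (nat_lit 0) Rl.nil C1_14 = true := by decide +kernel
def sc1_15 : stCov (nat_lit 0) (nat_lit 0) Rl.nil C1_15 = true := by decide +kernel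
def tc1_14 : tiCov (nat_lit 2) (nat_lit 14) ZZ1 C1_14 = true := by decide +kernel
def tc1_15 : tiCov (nat_lit 2) (nat_lit 15) ZZ1 C1_15 = true := by decide +kernel
def wf2_14 : wfC (nat_lit 61) (nat_lit 7) C2_14 = true := by decide +kernel
def wf2_15 : wfC (nat_lit 61) (nat_lit 7) C2_15 = true := by decide +kernel
def rf2_14 : rfCk (nat_lit 61) (nat_lit 3) (nat_lit 61) (nat_lit 7) (nat_lit 9) (nat_lit 0) (nat_lit 14) TL2 CL1 CL2 = true := by decide +kernel
def rf2_15 : rfCk (nat_lit 61) (nat_lit 3) (nat_lit 61) (nat_lit 7) (nat_lit 9) (nat_lit 0) (nat_lit 15) TL2 CL1 CL2 = true := by decide +kernel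
def sc2_14 : stCov (nat_lit 0) (nat_lit 0) Rl.nil C2_14 = true := by decide +kernel
def sc2_15 : stCov (nat_lit 0) (nat_lit 0) Rl.nil C2_15 = true := by decide +kernel
def tc2_14 : tiCov (nat_lit 2) (nat_lit 14) ZZ2 C2_14 = true := by decide +kernel
def tc2_15 : tiCov (nat_lit 2) (nat_lit 15) ZZ2 C2_15 = true := by decide +kernel
def wf3_6 : wfC (nat_lit 50) (nat_lit 5) C3_6 = true := by decide +kernel
def wf3_14 : wfC (nat_lit 50) (nat_lit 5) C3_14 = true := by decide +kernel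
def wf3_15 : wfC (nat_lit 50) (nat_lit 5) C3_15 = true := by decide +kernel
def rf3_6 : rfCk (nat_lit 61) (nat_lit 7) (nat_lit 50) (nat_lit 5) (nat_lit 9) (nat_lit 0) (nat_lit 6) TL3 CL2 CL3 = true := by decide +kernel
def rf3_14 : rfCk (nat_lit 61) (nat_lit 7) (nat_lit 50) (nat_lit 5) (nat_lit 9) (nat_lit 0) (nat_lit 14) TL3 CL2 CL3 = true := by decide +kernel
def rf3_15 : rfCk (nat_lit 61) (nat_lit 7) (nat_lit 50) (nat_lit 5) (nat_lit 9) (nat_lit 0) (nat_lit 15) TL3 CL2 CL3 = true := by decide +kernel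
def sc3_6 : stCov (nat_lit 0) (nat_lit 0) Rl.nil C3_6 = true := by decide +kernel
def sc3_14 : stCov (nat_lit 0) (nat_lit 0) Rl.nil C3_14 = true := by decide +kernel
def sc3_15 : stCov (nat_lit 0) (nat_lit 0) Rl.nil C3_15 = true := by decide +kernel
def tc3_6 : tiCov (nat_lit 2) (nat_lit 6) ZZ3 C3_6 = true := by decide +kernel
def tc3_14 : tiCov (nat_lit 2) (nat_lit 14) ZZ3 C3_14 = true := by decide +kernel
def tc3_15 : tiCov (nat_lit 2) (nat_lit 15) ZZ3 C3_15 = true := by decide +kernel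
def wf4_1 : wfC (nat_lit 3) (nat_lit 3) C4_1 = true := by decide +kernel
def wf4_2 : wfC (nat_lit 3) (nat_lit 3) C4_2 = true := by decide +kernel
def wf4_3 : wfC (nat_lit 3) (nat_lit 3) C4_3 = true := by decide +kernel
def wf4_5 : wfC (nat_lit 3) (nat_lit 3) C4_5 = true := by decide +kernel
def wf4_6 : wfC (nat_lit 3) (nat_lit 3) C4_6 = true := by decide +kernel
def wf4_8 : wfC (nat_lit 3) (nat_lit 3) C4_8 = true := by decide +kernel
def wf4_9 : wfC (nat_lit 3) (nat_lit 3) C4_9 = true := by decide +kernel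
def wf4_10 : wfC (nat_lit 3) (nat_lit 3) C4_10 = true := by decide +kernel
def wf4_11 : wfC (nat_lit 3) (nat_lit 3) C4_11 = true := by decide +kernel
def wf4_13 : wfC (nat_lit 3) (nat_lit 3) C4_13 = true := by decide +kernel
def wf4_14 : wfC (nat_lit 3) (nat_lit 3) C4_14 = true := by decide +kernel
def wf4_15 : wfC (nat_lit 3) (nat_lit 3) C4_15 = true := by decide +kernel
def wf4_16 : wfC (nat_lit 3) (nat_lit 3) C4_16 = true := by decide +kernel
def wf4_17 : wfC (nat_lit 3) (nat_lit 3) C4_17 = true := by decide +kernel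
def wf4_18 : wfC (nat_lit 3) (nat_lit 3) C4_18 = true := by decide +kernel
def wf4_19 : wfC (nat_lit 3) (nat_lit 3) C4_19 = true := by decide +kernel
def wf4_20 : wfC (nat_lit 3) (nat_lit 3) C4_20 = true := by decide +kernel
def wf4_21 : wfC (nat_lit 3) (nat_lit 3) C4_21 = true := by decide +kernel
def rf4_1 : rfCk (nat_lit 50) (nat_lit 5) (nat_lit 3) (nat_lit 3) (nat_lit 9) (nat_lit 0) (nat_lit 1) TL4 CL3 CL4 = true := by decide +kernel
def rf4_2 : rfCk (nat_lit 50) (nat_lit 5) (nat_lit 3) (nat_lit 3) (nat_lit 9) (nat_lit 0) (nat_lit 2) TL4 CL3 CL4 = true := by decide +kernel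
def rf4_3 : rfCk (nat_lit 50) (nat_lit 5) (nat_lit 3) (nat_lit 3) (nat_lit 9) (nat_lit 0) (nat_lit 3) TL4 CL3 CL4 = true := by decide +kernel
def rf4_5 : rfCk (nat_lit 50) (nat_lit 5) (nat_lit 3) (nat_lit 3) (nat_lit 9) (nat_lit 0) (nat_lit 5) TL4 CL3 CL4 = true := by decide +kernel
def rf4_6 : rfCk (nat_lit 50) (nat_lit 5) (nat_lit 3) (nat_lit 3) (nat_lit 9) (nat_lit 0) (nat_lit 6) TL4 CL3 CL4 = true := by decide +kernel
def rf4_8 : rfCk (nat_lit 50) (nat_lit 5) (nat_lit 3) (nat_lit 3) (nat_lit 9) (nat_lit 0) (nat_lit 8) TL4 CL3 CL4 = true := by decide +kernel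
def rf4_9 : rfCk (nat_lit 50) (nat_lit 5) (nat_lit 3) (nat_lit 3) (nat_lit 9) (nat_lit 0) (nat_lit 9) TL4 CL3 CL4 = true := by decide +kernel
def rf4_10 : rfCk (nat_lit 50) (nat_lit 5) (nat_lit 3) (nat_lit 3) (nat_lit 9) (nat_lit 0) (nat_lit 10) TL4 CL3 CL4 = true := by decide +kernel
def rf4_11 : rfCk (nat_lit 50) (nat_lit 5) (nat_lit 3) (nat_lit 3) (nat_lit 9) (nat_lit 0) (nat_lit 11) TL4 CL3 CL4 = true := by decide +kernel
def rf4_13 : rfCk (nat_lit 50) (nat_lit 5) (nat_lit 3) (nat_lit 3) (nat_lit 9) (nat_lit 0) (nat_lit 13) TL4 CL3 CL4 = true := by decide +kernel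
def rf4_14 : rfCk (nat_lit 50) (nat_lit 5) (nat_lit 3) (nat_lit 3) (nat_lit 9) (nat_lit 0) (nat_lit 14) TL4 CL3 CL4 = true := by decide +kernel
def rf4_15 : rfCk (nat_lit 50) (nat_lit 5) (nat_lit 3) (nat_lit 3) (nat_lit 9) (nat_lit 0) (nat_lit 15) TL4 CL3 CL4 = true := by decide +kernel
def rf4_16 : rfCk (nat_lit 50) (nat_lit 5) (nat_lit 3) (nat_lit 3) (nat_lit 9) (nat_lit 0) (nat_lit 16) TL4 CL3 CL4 = true := by decide +kernel
def rf4_17 : rfCk (nat_lit 50) (nat_lit 5) (nat_lit 3) (nat_lit 3) (nat_lit 9) (nat_lit 0) (nat_lit 17) TL4 CL3 CL4 = true := by decide +kernel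
def rf4_18 : rfCk (nat_lit 50) (nat_lit 5) (nat_lit 3) (nat_lit 3) (nat_lit 9) (nat_lit 0) (nat_lit 18) TL4 CL3 CL4 = true := by decide +kernel
def rf4_19 : rfCk (nat_lit 50) (nat_lit 5) (nat_lit 3) (nat_lit 3) (nat_lit 9) (nat_lit 0) (nat_lit 19) TL4 CL3 CL4 = true := by decide +kernel
def rf4_20 : rfCk (nat_lit 50) (nat_lit 5) (nat_lit 3) (nat_lit 3) (nat_lit 9) (nat_lit 0) (nat_lit 20) TL4 CL3 CL4 = true := by decide +kernel
def rf4_21 : rfCk (nat_lit 50) (nat_lit 5) (nat_lit 3) (nat_lit 3) (nat_lit 9) (nat_lit 0) (nat_lit 21) TL4 CL3 CL4 = true := by decide +kernel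
def sc4_1 : stCov (nat_lit 1) (nat_lit 0) Rl.nil C4_1 = true := by decide +kernel
def sc4_2 : stCov (nat_lit 0) (nat_lit 0) Rl.nil C4_2 = true := by decide +kernel
def sc4_3 : stCov (nat_lit 0) (nat_lit 0) Rl.nil C4_3 = true := by decide +kernel
def sc4_5 : stCov (nat_lit 0) (nat_lit 0) Rl.nil C4_5 = true := by decide +kernel
def sc4_6 : stCov (nat_lit 0) (nat_lit 0) Rl.nil C4_6 = true := by decide +kernel
def sc4_8 : stCov (nat_lit 0) (nat_lit 0) Rl.nil C4_8 = true := by decide +kernel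
def sc4_9 : stCov (nat_lit 0) (nat_lit 0) Rl.nil C4_9 = true := by decide +kernel
def sc4_10 : stCov (nat_lit 0) (nat_lit 0) Rl.nil C4_10 = true := by decide +kernel
def sc4_11 : stCov (nat_lit 0) (nat_lit 0) Rl.nil C4_11 = true := by decide +kernel
def sc4_13 : stCov (nat_lit 0) (nat_lit 0) Rl.nil C4_13 = true := by decide +kernel
def sc4_14 : stCov (nat_lit 0) (nat_lit 0) Rl.nil C4_14 = true := by decide +kernel
def sc4_15 : stCov (nat_lit 0) (nat_lit 0) Rl.nil C4_15 = true := by decide +kernel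
def sc4_16 : stCov (nat_lit 2) (nat_lit 0) Rl.nil C4_16 = true := by decide +kernel
def sc4_17 : stCov (nat_lit 0) (nat_lit 0) Rl.nil C4_17 = true := by decide +kernel
def sc4_18 : stCov (nat_lit 0) (nat_lit 0) Rl.nil C4_18 = true := by decide +kernel
def sc4_19 : stCov (nat_lit 0) (nat_lit 0) Rl.nil C4_19 = true := by decide +kernel
def sc4_20 : stCov (nat_lit 0) (nat_lit 0) Rl.nil C4_20 = true := by decide +kernel
def sc4_21 : stCov (nat_lit 0) (nat_lit 0) Rl.nil C4_21 = true := by decide +kernel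
def tc4_1 : tiCov (nat_lit 2) (nat_lit 1) ZZ4 C4_1 = true := by decide +kernel
def tc4_2 : tiCov (nat_lit 2) (nat_lit 2) ZZ4 C4_2 = true := by decide +kernel
def tc4_3 : tiCov (nat_lit 2) (nat_lit 3) ZZ4 C4_3 = true := by decide +kernel
def tc4_5 : tiCov (nat_lit 2) (nat_lit 5) ZZ4 C4_5 = true := by decide +kernel
def tc4_6 : tiCov (nat_lit 2) (nat_lit 6) ZZ4 C4_6 = true := by decide +kernel
def tc4_8 : tiCov (nat_lit 2) (nat_lit 8) ZZ4 C4_8 = true := by decide +kernel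
def tc4_9 : tiCov (nat_lit 2) (nat_lit 9) ZZ4 C4_9 = true := by decide +kernel
def tc4_10 : tiCov (nat_lit 2) (nat_lit 10) ZZ4 C4_10 = true := by decide +kernel
def tc4_11 : tiCov (nat_lit 2) (nat_lit 11) ZZ4 C4_11 = true := by decide +kernel
def tc4_13 : tiCov (nat_lit 2) (nat_lit 13) ZZ4 C4_13 = true := by decide +kernel
def tc4_14 : tiCov (nat_lit 2) (nat_lit 14) ZZ4 C4_14 = true := by decide +kernel
def tc4_15 : tiCov (nat_lit 2) (nat_lit 15) ZZ4 C4_15 = true := by decide +kernel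
def tc4_16 : tiCov (nat_lit 2) (nat_lit 16) ZZ4 C4_16 = true := by decide +kernel
def tc4_17 : tiCov (nat_lit 2) (nat_lit 17) ZZ4 C4_17 = true := by decide +kernel
def tc4_18 : tiCov (nat_lit 2) (nat_lit 18) ZZ4 C4_18 = true := by decide +kernel
def tc4_19 : tiCov (nat_lit 2) (nat_lit 19) ZZ4 C4_19 = true := by decide +kernel
def tc4_20 : tiCov (nat_lit 2) (nat_lit 20) ZZ4 C4_20 = true := by decide +kernel
def tc4_21 : tiCov (nat_lit 2) (nat_lit 21) ZZ4 C4_21 = true := by decide +kernel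
def wf5_0 : wfC (nat_lit 1) (nat_lit 1) C5_0 = true := by decide +kernel
def wf5_1 : wfC (nat_lit 1) (nat_lit 1) C5_1 = true := by decide +kernel
def wf5_2 : wfC (nat_lit 1) (nat_lit 1) C5_2 = true := by decide +kernel
def wf5_3 : wfC (nat_lit 1) (nat_lit 1) C5_3 = true := by decide +kernel
def wf5_4 : wfC (nat_lit 1) (nat_lit 1) C5_4 = true := by decide +kernel
def wf5_5 : wfC (nat_lit 1) (nat_lit 1) C5_5 = true := by decide +kernel
def wf5_6 : wfC (nat_lit 1) (nat_lit 1) C5_6 = true := by decide +kernel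
def wf5_7 : wfC (nat_lit 1) (nat_lit 1) C5_7 = true := by decide +kernel
def wf5_8 : wfC (nat_lit 1) (nat_lit 1) C5_8 = true := by decide +kernel
def wf5_9 : wfC (nat_lit 1) (nat_lit 1) C5_9 = true := by decide +kernel
def wf5_10 : wfC (nat_lit 1) (nat_lit 1) C5_10 = true := by decide +kernel
def wf5_11 : wfC (nat_lit 1) (nat_lit 1) C5_11 = true := by decide +kernel
def wf5_12 : wfC (nat_lit 1) (nat_lit 1) C5_12 = true := by decide +kernel
def wf5_13 : wfC (nat_lit 1) (nat_lit 1) C5_13 = true := by decide +kernel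
def wf5_14 : wfC (nat_lit 1) (nat_lit 1) C5_14 = true := by decide +kernel
def wf5_15 : wfC (nat_lit 1) (nat_lit 1) C5_15 = true := by decide +kernel
def wf5_16 : wfC (nat_lit 1) (nat_lit 1) C5_16 = true := by decide +kernel
def wf5_17 : wfC (nat_lit 1) (nat_lit 1) C5_17 = true := by decide +kernel
def wf5_18 : wfC (nat_lit 1) (nat_lit 1) C5_18 = true := by decide +kernel
def wf5_19 : wfC (nat_lit 1) (nat_lit 1) C5_19 = true := by decide +kernel
def wf5_20 : wfC (nat_lit 1) (nat_lit 1) C5_20 = true := by decide +kernel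
def wf5_21 : wfC (nat_lit 1) (nat_lit 1) C5_21 = true := by decide +kernel
def rf5_0 : rfCk (nat_lit 3) (nat_lit 3) (nat_lit 1) (nat_lit 1) (nat_lit 9) (nat_lit 0) (nat_lit 0) TL5 CL4 CL5 = true := by decide +kernel
def rf5_1 : rfCk (nat_lit 3) (nat_lit 3) (nat_lit 1) (nat_lit 1) (nat_lit 9) (nat_lit 0) (nat_lit 1) TL5 CL4 CL5 = true := by decide +kernel
def rf5_2 : rfCk (nat_lit 3) (nat_lit 3) (nat_lit 1) (nat_lit 1) (nat_lit 9) (nat_lit 0) (nat_lit 2) TL5 CL4 CL5 = true := by decide +kernel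
def rf5_3 : rfCk (nat_lit 3) (nat_lit 3) (nat_lit 1) (nat_lit 1) (nat_lit 9) (nat_lit 0) (nat_lit 3) TL5 CL4 CL5 = true := by decide +kernel
def rf5_4 : rfCk (nat_lit 3) (nat_lit 3) (nat_lit 1) (nat_lit 1) (nat_lit 9) (nat_lit 0) (nat_lit 4) TL5 CL4 CL5 = true := by decide +kernel
def rf5_5 : rfCk (nat_lit 3) (nat_lit 3) (nat_lit 1) (nat_lit 1) (nat_lit 9) (nat_lit 0) (nat_lit 5) TL5 CL4 CL5 = true := by decide +kernel
def rf5_6 : rfCk (nat_lit 3) (nat_lit 3) (nat_lit 1) (nat_lit 1) (nat_lit 9) (nat_lit 0) (nat_lit 6) TL5 CL4 CL5 = true := by decide +kernel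
def rf5_7 : rfCk (nat_lit 3) (nat_lit 3) (nat_lit 1) (nat_lit 1) (nat_lit 9) (nat_lit 0) (nat_lit 7) TL5 CL4 CL5 = true := by decide +kernel
def rf5_8 : rfCk (nat_lit 3) (nat_lit 3) (nat_lit 1) (nat_lit 1) (nat_lit 9) (nat_lit 0) (nat_lit 8) TL5 CL4 CL5 = true := by decide +kernel
def rf5_9 : rfCk (nat_lit 3) (nat_lit 3) (nat_lit 1) (nat_lit 1) (nat_lit 9) (nat_lit 0) (nat_lit 9) TL5 CL4 CL5 = true := by decide +kernel
def rf5_10 : rfCk (nat_lit 3) (nat_lit 3) (nat_lit 1) (nat_lit 1) (nat_lit 9) (nat_lit 0) (nat_lit 10) TL5 CL4 CL5 = true := by decide +kernel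
def rf5_11 : rfCk (nat_lit 3) (nat_lit 3) (nat_lit 1) (nat_lit 1) (nat_lit 9) (nat_lit 0) (nat_lit 11) TL5 CL4 CL5 = true := by decide +kernel
def rf5_12 : rfCk (nat_lit 3) (nat_lit 3) (nat_lit 1) (nat_lit 1) (nat_lit 9) (nat_lit 0) (nat_lit 12) TL5 CL4 CL5 = true := by decide +kernel
def rf5_13 : rfCk (nat_lit 3) (nat_lit 3) (nat_lit 1) (nat_lit 1) (nat_lit 9) (nat_lit 0) (nat_lit 13) TL5 CL4 CL5 = true := by decide +kernel
def rf5_14 : rfCk (nat_lit 3) (nat_lit 3) (nat_lit 1) (nat_lit 1) (nat_lit 9) (nat_lit 0) (nat_lit 14) TL5 CL4 CL5 = true := by decide +kernel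
def rf5_15 : rfCk (nat_lit 3) (nat_lit 3) (nat_lit 1) (nat_lit 1) (nat_lit 9) (nat_lit 0) (nat_lit 15) TL5 CL4 CL5 = true := by decide +kernel
def rf5_16 : rfCk (nat_lit 3) (nat_lit 3) (nat_lit 1) (nat_lit 1) (nat_lit 9) (nat_lit 0) (nat_lit 16) TL5 CL4 CL5 = true := by decide +kernel
def rf5_17 : rfCk (nat_lit 3) (nat_lit 3) (nat_lit 1) (nat_lit 1) (nat_lit 9) (nat_lit 0) (nat_lit 17) TL5 CL4 CL5 = true := by decide +kernel
def rf5_18 : rfCk (nat_lit 3) (nat_lit 3) (nat_lit 1) (nat_lit 1) (nat_lit 9) (nat_lit 0) (nat_lit 18) TL5 CL4 CL5 = true := by decide +kernel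
def rf5_19 : rfCk (nat_lit 3) (nat_lit 3) (nat_lit 1) (nat_lit 1) (nat_lit 9) (nat_lit 0) (nat_lit 19) TL5 CL4 CL5 = true := by decide +kernel
def rf5_20 : rfCk (nat_lit 3) (nat_lit 3) (nat_lit 1) (nat_lit 1) (nat_lit 9) (nat_lit 0) (nat_lit 20) TL5 CL4 CL5 = true := by decide +kernel
def rf5_21 : rfCk (nat_lit 3) (nat_lit 3) (nat_lit 1) (nat_lit 1) (nat_lit 9) (nat_lit 0) (nat_lit 21) TL5 CL4 CL5 = true := by decide +kernel
def de5_0 : deadCk (nat_lit 1) (nat_lit 1) C5_0 = true := by decide +kernel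
def de5_1 : deadCk (nat_lit 1) (nat_lit 1) C5_1 = true := by decide +kernel
def de5_2 : deadCk (nat_lit 1) (nat_lit 1) C5_2 = true := by decide +kernel
def de5_3 : deadCk (nat_lit 1) (nat_lit 1) C5_3 = true := by decide +kernel
def de5_4 : deadCk (nat_lit 1) (nat_lit 1) C5_4 = true := by decide +kernel
def de5_5 : deadCk (nat_lit 1) (nat_lit 1) C5_5 = true := by decide +kernel
def de5_6 : deadCk (nat_lit 1) (nat_lit 1) C5_6 = true := by decide +kernel
def de5_7 : deadCk (nat_lit 1) (nat_lit 1) C5_7 = true := by decide +kernel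
def de5_8 : deadCk (nat_lit 1) (nat_lit 1) C5_8 = true := by decide +kernel
def de5_9 : deadCk (nat_lit 1) (nat_lit 1) C5_9 = true := by decide +kernel
def de5_10 : deadCk (nat_lit 1) (nat_lit 1) C5_10 = true := by decide +kernel
def de5_11 : deadCk (nat_lit 1) (nat_lit 1) C5_11 = true := by decide +kernel
def de5_12 : deadCk (nat_lit 1) (nat_lit 1) C5_12 = true := by decide +kernel
def de5_13 : deadCk (nat_lit 1) (nat_lit 1) C5_13 = true := by decide +kernel
def de5_14 : deadCk (nat_lit 1) (nat_lit 1) C5_14 = true := by decide +kernel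
def de5_15 : deadCk (nat_lit 1) (nat_lit 1) C5_15 = true := by decide +kernel
def de5_16 : deadCk (nat_lit 1) (nat_lit 1) C5_16 = true := by decide +kernel
def de5_17 : deadCk (nat_lit 1) (nat_lit 1) C5_17 = true := by decide +kernel
def de5_18 : deadCk (nat_lit 1) (nat_lit 1) C5_18 = true := by decide +kernel
def de5_19 : deadCk (nat_lit 1) (nat_lit 1) C5_19 = true := by decide +kernel

end Pool.Agent.NNr.R15_1_3_4
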