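import Pool.Agent.NNr.R15_1_3_4.D5

set_option linter.all false
set_option maxRecDepth 1000000
namespace Pool.Agent.NNr.R15_1_3_4

open Pool.Agent.NNe

def de5_20 : deadCk (nat_lit 1) (nat_lit 1) C5_20 = true := by decide +kernel
def de5_21 : deadCk (nat_lit 1) (nat_lit 1) C5_21 = true := by decide +kernel

end Pool.Agent.NNr.R15_1_3_4
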